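import Mathlib
import Pool.Agent.Helper38.TC.Base

/-! A family of complete bayonet codes with ratio tending to 13/12. -/

set_option autoImplicit false

namespace Pool.Agent.Helper31.BAY

open InformationTheory Finset
open Pool.Agent.Helper38.TC (wd cons_inj no_b wd_inj Yset ud_of_cert card_le)

/-- the number below `(6t+2)(6t+3)` with residues `x` modulo `6t+2` and `w` modulo `6t+3` -/
def col (t : ℕ) (p : ℕ × ℕ) : ℕ :=
  p.1 + (6 * t + 2) * ((p.1 + (6 * t + 3) - p.2) % (6 * t + 3))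

/-- relation of two pairs of residues -/
def Tp (p q : ℕ × ℕ) : Prop :=
  (p.1 % 2 = q.1 % 2 ∧ p.1 ≠ q.1) ∨ (p.2 % 3 = q.2 % 3 ∧ p.2 ≠ q.2)

/-- the set of defects -/
def TT (t : ℕ) (d : ℤ) : Prop :=
  ((2 : ℤ) ∣ d ∧ ¬ ((6 * t + 2 : ℕ) : ℤ) ∣ d) ∨ ((3 : ℤ) ∣ d ∧ ¬ ((6 * t + 3 : ℕ) : ℤ) ∣ d)

/-- the residue of the rows on the third level -/
def th (t u v : ℕ) : ℕ := if 3 * v + (2 * u) % 3 = 2 * u then 6 * t + 1 else 1

/-- the column class of the last family -/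
def sg (u : ℕ) : ℕ := if (2 * u) % 3 = 0 then 0 else 1

lemma th_spec (t u v : ℕ) : (3 * v + (2 * u) % 3 = 2 * u ∧ th t u v = 6 * t + 1) ∨
    (3 * v + (2 * u) % 3 ≠ 2 * u ∧ th t u v = 1) := by
  unfold th
  split_ifs with h
  · exact Or.inl ⟨h, rfl⟩
  · exact Or.inr ⟨h, rfl⟩

lemma sg_spec (u : ℕ) : ((2 * u) % 3 = 0 ∧ sg u = 0) ∨ ((2 * u) % 3 ≠ 0 ∧ sg u = 1) := by
  unfold sg
  split_ifs with h
  · exact Or.inl ⟨h, rfl⟩
  · exact Or.inr ⟨h, rfl⟩

/-- first component (row) of the word with index `(c,u,v)` -/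
def ro (t : ℕ) (e : ℕ × ℕ × ℕ) : ℕ × ℕ :=
  if e.1 = 0 then (0, 0) else
  if e.1 = 1 then (0, th t e.2.1 e.2.2) else
  if e.1 = 2 then (1, th t e.2.1 e.2.2) else
  if e.1 = 3 then (1, 0) else
  if e.1 = 4 then (0, 6 * t + 2) else (1, 6 * t + 2)

/-- second component (column) of the word with index `(c,u,v)` -/
def co (e : ℕ × ℕ × ℕ) : ℕ × ℕ :=
  if e.1 = 3 then (2 * e.2.1 + e.2.2 % 2, 3 * e.2.2) else
  if e.1 = 4 then (2 * e.2.1 + (e.2.2 + 1) % 2, 3 * e.2.2 + 1) else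
  if e.1 = 5 then (2 * e.2.1, 3 * e.2.2 + sg e.2.1) else
  (2 * e.2.1, 3 * e.2.2 + (2 * e.2.1) % 3)

/-- index set -/
def II (t : ℕ) : Finset (ℕ × ℕ × ℕ) := range 6 ×ˢ range (3 * t + 1) ×ˢ range (2 * t + 1)

lemma mem_II {t : ℕ} {e : ℕ × ℕ × ℕ} :
    e ∈ II t ↔ e.1 < 6 ∧ e.2.1 < 3 * t + 1 ∧ e.2.2 < 2 * t + 1 := by
  simp [II, mem_product, mem_range]

lemma ro_lt {t : ℕ} (e : ℕ × ℕ × ℕ) :
    (ro t e).1 < 6 * t + 2 ∧ (ro t e).2 < 6 * t + 3 := by
  have h := th_spec t e.2.1 e.2.2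
  unfold ro
  split_ifs <;> constructor <;> simp only <;> omega

lemma co_lt {t : ℕ} {e : ℕ × ℕ × ℕ} (he : e ∈ II t) :
    (co e).1 < 6 * t + 2 ∧ (co e).2 < 6 * t + 3 := by
  rw [mem_II] at he
  have h := sg_spec e.2.1
  unfold co
  split_ifs <;> constructor <;> simp only <;> omega

lemma col_modN {t : ℕ} (p : ℕ × ℕ) : ((6 * t + 2 : ℕ) : ℤ) ∣ (col t p : ℤ) - p.1 := by
  refine ⟨(((p.1 + (6 * t + 3) - p.2) % (6 * t + 3) : ℕ) : ℤ), ?_⟩
  simp only [col]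
  push_cast
  ring

lemma col_modM {t : ℕ} {p : ℕ × ℕ} (hp : p.2 < 6 * t + 3) :
    ((6 * t + 3 : ℕ) : ℤ) ∣ (col t p : ℤ) - p.2 := by
  set μ := (p.1 + (6 * t + 3) - p.2) % (6 * t + 3) with hμ
  obtain ⟨q, hq⟩ : ∃ q : ℕ, p.1 + (6 * t + 3) - p.2 = (6 * t + 3) * q + μ :=
    ⟨(p.1 + (6 * t + 3) - p.2) / (6 * t + 3), (Nat.div_add_mod _ _).symm⟩
  have h1 : (p.1 : ℤ) + (6 * t + 3) - p.2 = (6 * t + 3) * q + μ := by
    have : p.1 + (6 * t + 3) = (6 * t + 3) * q + μ + p.2 := by omega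
    have h2 : (p.1 : ℤ) + (6 * t + 3) = (6 * t + 3) * q + μ + p.2 := by exact_mod_cast this
    linarith
  refine ⟨(μ : ℤ) - 1 + q, ?_⟩
  simp only [col]
  rw [← hμ]
  push_cast
  linear_combination h1

lemma col_lt {t : ℕ} {p : ℕ × ℕ} (hp : p.1 < 6 * t + 2) :
    col t p < (6 * t + 2) * (6 * t + 3) := by
  have h : (p.1 + (6 * t + 3) - p.2) % (6 * t + 3) < 6 * t + 3 := Nat.mod_lt _ (by omega)
  unfold col
  set μ := (p.1 + (6 * t + 3) - p.2) % (6 * t + 3)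
  have h1 : (6 * t + 2) * μ + (6 * t + 2) ≤ (6 * t + 2) * (6 * t + 3) := by
    have : (6 * t + 2) * (μ + 1) ≤ (6 * t + 2) * (6 * t + 3) := Nat.mul_le_mul_left _ h
    linarith
  omega

lemma dvd_small {m x y : ℕ} (hx : x < m) (hy : y < m) (h : (m : ℤ) ∣ (x : ℤ) - y) : x = y := by
  obtain ⟨c, hc⟩ := h
  have h1 : (x : ℤ) - y < m := by omega
  have h2 : -(m : ℤ) < (x : ℤ) - y := by omega
  have hm : (0 : ℤ) < m := by omega
  have hc1 : c < 1 := by
    by_contra hcc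
    push Not at hcc
    nlinarith
  have hc2 : -1 < c := by
    by_contra hcc
    push Not at hcc
    nlinarith
  have : c = 0 := by omega
  subst this
  omega

lemma TT_col {t : ℕ} {p q : ℕ × ℕ} (hp : p.1 < 6 * t + 2 ∧ p.2 < 6 * t + 3)
    (hq : q.1 < 6 * t + 2 ∧ q.2 < 6 * t + 3) :
    TT t ((col t p : ℤ) - col t q) ↔ Tp p q := by
  have a1 := col_modN (t := t) p
  have a2 := col_modN (t := t) q
  have b1 := col_modM hp.2
  have b2 := col_modM hq.2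
  have a3 : ((6 * t + 2 : ℕ) : ℤ) ∣ ((col t p : ℤ) - col t q) - (p.1 - q.1) := by
    have := dvd_sub a1 a2
    have e : (col t p : ℤ) - p.1 - (col t q - q.1) = ((col t p : ℤ) - col t q) - (p.1 - q.1) := by
      ring
    rwa [e] at this
  have b3 : ((6 * t + 3 : ℕ) : ℤ) ∣ ((col t p : ℤ) - col t q) - (p.2 - q.2) := by
    have := dvd_sub b1 b2
    have e : (col t p : ℤ) - p.2 - (col t q - q.2) = ((col t p : ℤ) - col t q) - (p.2 - q.2) := by
      ring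
    rwa [e] at this
  have a4 : (2 : ℤ) ∣ ((col t p : ℤ) - col t q) - (p.1 - q.1) :=
    dvd_trans ⟨3 * t + 1, by push_cast; ring⟩ a3
  have b4 : (3 : ℤ) ∣ ((col t p : ℤ) - col t q) - (p.2 - q.2) :=
    dvd_trans ⟨2 * t + 1, by push_cast; ring⟩ b3
  have a5 : ((6 * t + 2 : ℕ) : ℤ) ∣ ((col t p : ℤ) - col t q) ↔ p.1 = q.1 := by
    constructor
    · intro h
      have h1 := dvd_sub h a3
      refine dvd_small hp.1 hq.1 ?_
      have e : (col t p : ℤ) - col t q - (((col t p : ℤ) - col t q) - (p.1 - q.1)) =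
        (p.1 : ℤ) - q.1 := by ring
      rwa [e] at h1
    · intro h
      have e : ((p.1 : ℤ) - q.1) = 0 := by rw [h]; ring
      rw [e, sub_zero] at a3
      exact a3
  have b5 : ((6 * t + 3 : ℕ) : ℤ) ∣ ((col t p : ℤ) - col t q) ↔ p.2 = q.2 := by
    constructor
    · intro h
      have h1 := dvd_sub h b3
      refine dvd_small hp.2 hq.2 ?_
      have e : (col t p : ℤ) - col t q - (((col t p : ℤ) - col t q) - (p.2 - q.2)) =
        (p.2 : ℤ) - q.2 := by ring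
      rwa [e] at h1
    · intro h
      have e : ((p.2 : ℤ) - q.2) = 0 := by rw [h]; ring
      rw [e, sub_zero] at b3
      exact b3
  unfold TT Tp
  rw [a5, b5]
  generalize (col t p : ℤ) - col t q = D at a4 b4
  constructor
  · rintro (⟨h1, h2⟩ | ⟨h1, h2⟩)
    · left
      refine ⟨?_, h2⟩
      omega
    · right
      refine ⟨?_, h2⟩
      omega
  · rintro (⟨h1, h2⟩ | ⟨h1, h2⟩)
    · left
      refine ⟨?_, h2⟩
      omega
    · right
      refine ⟨?_, h2⟩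
      omega

/-- The combinatorial heart. -/
lemma core {t : ℕ} {e e' : ℕ × ℕ × ℕ} (he : e ∈ II t) (he' : e' ∈ II t) (hne : e ≠ e')
    (h : ro t e = ro t e' ∨ Tp (ro t e) (ro t e')) : Tp (co e) (co e') := by
  obtain ⟨c, u, v⟩ := e
  obtain ⟨c', u', v'⟩ := e'
  rw [mem_II] at he he'
  simp only at he he'
  obtain ⟨hc, hu, hv⟩ := he
  obtain ⟨hc', hu', hv'⟩ := he'
  have hne' : ¬ (c = c' ∧ u = u' ∧ v = v') := by
    rintro ⟨rfl, rfl, rfl⟩
    exact hne rfl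
  have t1 := th_spec t u v
  have t2 := th_spec t u' v'
  have s1 := sg_spec u
  have s2 := sg_spec u'
  unfold ro co Tp at *
  simp only at h ⊢
  generalize th t u v = a1 at *
  generalize th t u' v' = a2 at *
  generalize sg u = b1 at *
  generalize sg u' = b2 at *
  clear hne
  interval_cases c <;> interval_cases c' <;> (try norm_num at h) <;> (try norm_num) <;> omega

/-- the pairs of exponents, before the blow-up -/
def pr (t : ℕ) (e : ℕ × ℕ × ℕ) : ℕ × ℕ := (col t (ro t e), col t (co e))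

/-- the word with index `(e, r)` -/
def bl (t m : ℕ) (e : (ℕ × ℕ × ℕ) × ℕ) : ℕ × ℕ :=
  (m * (pr t e.1).1 + e.2, m * (pr t e.1).2 + (m - 1 - e.2))

/-- the set of pairs of exponents -/
def XX (t m : ℕ) : Finset (ℕ × ℕ) := (II t ×ˢ range m).image (bl t m)

/-- defects of the blown up code -/
def TM (t m : ℕ) (d : ℤ) : Prop := ∃ s : ℤ, d = m * s ∧ TT t s

lemma TT_zero (t : ℕ) (d : ℤ) (h : TT t d) : ¬ (((6 * t + 2) * (6 * t + 3) : ℕ) : ℤ) ∣ d := by
  intro h'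
  rcases h with ⟨-, h⟩ | ⟨-, h⟩
  · exact h (dvd_trans ⟨((6 * t + 3 : ℕ) : ℤ), by push_cast; ring⟩ h')
  · exact h (dvd_trans ⟨((6 * t + 2 : ℕ) : ℤ), by push_cast; ring⟩ h')

lemma TT_shift (t : ℕ) (d d' : ℤ) (h : TT t d)
    (h' : (((6 * t + 2) * (6 * t + 3) : ℕ) : ℤ) ∣ d - d') : TT t d' := by
  have a : ((6 * t + 2 : ℕ) : ℤ) ∣ d - d' :=
    dvd_trans ⟨((6 * t + 3 : ℕ) : ℤ), by push_cast; ring⟩ h'
  have b : ((6 * t + 3 : ℕ) : ℤ) ∣ d - d' :=
    dvd_trans ⟨((6 * t + 2 : ℕ) : ℤ), by push_cast; ring⟩ h'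
  have a2 : (2 : ℤ) ∣ d - d' := dvd_trans ⟨3 * t + 1, by push_cast; ring⟩ a
  have b3 : (3 : ℤ) ∣ d - d' := dvd_trans ⟨2 * t + 1, by push_cast; ring⟩ b
  rcases h with ⟨h1, h2⟩ | ⟨h1, h2⟩
  · left
    refine ⟨by omega, fun h3 => h2 ?_⟩
    have := dvd_add a h3
    rwa [sub_add_cancel] at this
  · right
    refine ⟨by omega, fun h3 => h2 ?_⟩
    have := dvd_add b h3
    rwa [sub_add_cancel] at this

lemma col_inj {t : ℕ} {p q : ℕ × ℕ} (hp : p.1 < 6 * t + 2 ∧ p.2 < 6 * t + 3)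
    (hq : q.1 < 6 * t + 2 ∧ q.2 < 6 * t + 3) (h : col t p = col t q) : p = q := by
  have a1 := col_modN (t := t) p
  have a2 := col_modN (t := t) q
  have b1 := col_modM hp.2
  have b2 := col_modM hq.2
  rw [h] at a1 b1
  have a3 := dvd_sub a2 a1
  have b3 := dvd_sub b2 b1
  have e1 : (col t q : ℤ) - q.1 - (col t q - p.1) = (p.1 : ℤ) - q.1 := by ring
  have e2 : (col t q : ℤ) - q.2 - (col t q - p.2) = (p.2 : ℤ) - q.2 := by ring
  rw [e1] at a3
  rw [e2] at b3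
  exact Prod.ext (dvd_small hp.1 hq.1 a3) (dvd_small hp.2 hq.2 b3)

lemma mem_XX {t m : ℕ} {x : ℕ × ℕ} (hx : x ∈ XX t m) : ∃ e ∈ II t, ∃ r < m, bl t m (e, r) = x := by
  obtain ⟨⟨e, r⟩, h, rfl⟩ := mem_image.1 hx
  rw [mem_product, mem_range] at h
  exact ⟨e, h.1, r, h.2, rfl⟩

lemma XX_core {t m : ℕ} {e e' : ℕ × ℕ × ℕ} {r r' : ℕ} (hm : 0 < m)
    (he : e ∈ II t) (he' : e' ∈ II t) (hr : r < m) (hr' : r' < m) (hne : (e, r) ≠ (e', r'))
    (h : (((6 * t + 2) * (6 * t + 3) * m : ℕ) : ℤ) ∣ ((bl t m (e, r)).1 : ℤ) - (bl t m (e', r')).1 ∨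
      TM t m (((bl t m (e, r)).1 : ℤ) - (bl t m (e', r')).1)) :
    TM t m (((bl t m (e, r)).2 : ℤ) - (bl t m (e', r')).2) := by
  have hmz : (m : ℤ) ≠ 0 := by positivity
  have hd : (m : ℤ) ∣ ((bl t m (e, r)).1 : ℤ) - (bl t m (e', r')).1 := by
    rcases h with h | ⟨s, hs, -⟩
    · exact dvd_trans ⟨(((6 * t + 2) * (6 * t + 3) : ℕ) : ℤ), by push_cast; ring⟩ h
    · exact ⟨s, hs⟩
  have hrr : r = r' := by
    refine dvd_small hr hr' ?_
    have h1 : (m : ℤ) ∣ m * (((pr t e).1 : ℤ) - (pr t e').1) := Dvd.intro _ rfl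
    have h2 := dvd_sub hd h1
    have e1 : ((bl t m (e, r)).1 : ℤ) - (bl t m (e', r')).1 -
        m * (((pr t e).1 : ℤ) - (pr t e').1) = (r : ℤ) - r' := by
      simp only [bl]
      push_cast
      ring
    rwa [e1] at h2
  subst hrr
  have hee : e ≠ e' := fun h => hne (by rw [h])
  have e1 : ((bl t m (e, r)).1 : ℤ) - (bl t m (e', r)).1 =
      m * (((pr t e).1 : ℤ) - (pr t e').1) := by
    simp only [bl]
    push_cast
    ring
  have e2 : ((bl t m (e, r)).2 : ℤ) - (bl t m (e', r)).2 =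
      m * (((pr t e).2 : ℤ) - (pr t e').2) := by
    simp only [bl]
    push_cast
    ring
  refine ⟨((pr t e).2 : ℤ) - (pr t e').2, e2, ?_⟩
  simp only [pr]
  rw [TT_col (co_lt he) (co_lt he')]
  refine core he he' hee ?_
  rw [e1] at h
  rcases h with h | ⟨s, hs, hT⟩
  · left
    have h3 : (((6 * t + 2) * (6 * t + 3) : ℕ) : ℤ) ∣ ((pr t e).1 : ℤ) - (pr t e').1 := by
      have h4 : (m : ℤ) * (((6 * t + 2) * (6 * t + 3) : ℕ) : ℤ) ∣
          m * (((pr t e).1 : ℤ) - (pr t e').1) := by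
        have e3 : (((6 * t + 2) * (6 * t + 3) * m : ℕ) : ℤ) =
            (m : ℤ) * (((6 * t + 2) * (6 * t + 3) : ℕ) : ℤ) := by
          push_cast
          ring
        rwa [e3] at h
      exact (mul_dvd_mul_iff_left hmz).1 h4
    have h5 := dvd_small (col_lt (ro_lt e).1) (col_lt (ro_lt e').1) h3
    exact col_inj (ro_lt e) (ro_lt e') h5
  · right
    have h6 : ((pr t e).1 : ℤ) - (pr t e').1 = s := mul_left_cancel₀ hmz hs
    rw [← TT_col (ro_lt e) (ro_lt e')]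
    simp only [pr] at h6
    rw [h6]
    exact hT

lemma XX_ud {k : ℕ} {a b : Fin k} (hab : a ≠ b) (t : ℕ) {m : ℕ} (hm : 0 < m) :
    UniquelyDecodable (Yset a b ((6 * t + 2) * (6 * t + 3) * m) (XX t m : Set (ℕ × ℕ))) := by
  have hmz : (m : ℤ) ≠ 0 := by positivity
  refine ud_of_cert (T := TM t m) hab (by positivity) ?_ ?_ ?_ ?_
  · rintro d ⟨s, rfl, hs⟩ h
    refine TT_zero t s hs ?_
    have e3 : (((6 * t + 2) * (6 * t + 3) * m : ℕ) : ℤ) =
        (m : ℤ) * (((6 * t + 2) * (6 * t + 3) : ℕ) : ℤ) := by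
      push_cast
      ring
    rw [e3] at h
    exact (mul_dvd_mul_iff_left hmz).1 h
  · rintro d d' ⟨s, rfl, hs⟩ ⟨c, hc⟩
    refine ⟨s - (((6 * t + 2) * (6 * t + 3) : ℕ) : ℤ) * c, ?_, TT_shift t s _ hs ⟨c, by ring⟩⟩
    push_cast at hc ⊢
    linear_combination -hc
  · intro x hx y hy hxy hd
    obtain ⟨e, he, r, hr, rfl⟩ := mem_XX hx
    obtain ⟨e', he', r', hr', rfl⟩ := mem_XX hy
    exact XX_core hm he he' hr hr' (fun h => hxy (by rw [h])) (Or.inl hd)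
  · intro x hx y hy hT
    obtain ⟨e, he, r, hr, rfl⟩ := mem_XX hx
    obtain ⟨e', he', r', hr', rfl⟩ := mem_XX hy
    have hne : (e, r) ≠ (e', r') := by
      intro h
      rw [h, sub_self] at hT
      obtain ⟨s, hs, hs'⟩ := hT
      have : s = 0 := by
        rcases mul_eq_zero.1 hs.symm with h1 | h1
        · exact absurd h1 hmz
        · exact h1
      subst this
      exact TT_zero t 0 hs' (dvd_zero _)
    refine XX_core hm he he' hr hr' hne (Or.inr ?_)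
    obtain ⟨s, hs, hs'⟩ := hT
    refine ⟨-s, by linarith, ?_⟩
    rcases hs' with ⟨h1, h2⟩ | ⟨h1, h2⟩
    · exact Or.inl ⟨(dvd_neg).2 h1, fun h => h2 ((dvd_neg).1 h)⟩
    · exact Or.inr ⟨(dvd_neg).2 h1, fun h => h2 ((dvd_neg).1 h)⟩

lemma bl_inj (t m : ℕ) : Set.InjOn (bl t m) ((II t ×ˢ range m : Finset _) : Set _) := by
  rintro ⟨e, r⟩ h ⟨e', r'⟩ h' he
  have h1 := mem_product.1 (Finset.mem_coe.1 h)
  have h2 := mem_product.1 (Finset.mem_coe.1 h')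
  simp only [mem_range] at h1 h2
  by_contra hne
  have hm : 0 < m := by omega
  have h3 := XX_core hm h1.1 h2.1 h1.2 h2.2 hne (Or.inl (by rw [he, sub_self]; exact dvd_zero _))
  rw [he, sub_self] at h3
  obtain ⟨s, hs, hs'⟩ := h3
  have hmz : (m : ℤ) ≠ 0 := by positivity
  have : s = 0 := by
    rcases mul_eq_zero.1 hs.symm with h4 | h4
    · exact absurd h4 hmz
    · exact h4
  subst this
  exact TT_zero t 0 hs' (dvd_zero _)

lemma XX_card (t m : ℕ) : (XX t m).card = (6 * t + 2) * (6 * t + 3) * m := by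
  rw [XX, Finset.card_image_of_injOn (bl_inj t m), card_product, card_range]
  simp only [II, card_product, card_range]
  ring

end Pool.Agent.Helper31.BAY
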