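import Mathlib
import Pool.Agent.Helper31.BAY.Family

/-! Counting the short words of the family. -/

set_option autoImplicit false

namespace Pool.Agent.Helper31.BAY

open Finset

lemma col_eq {t : ℕ} {p : ℕ × ℕ} (μ : ℕ) (hμ : μ < 6 * t + 3)
    (h : p.2 + μ = p.1 ∨ p.2 + μ = p.1 + (6 * t + 3)) : col t p = p.1 + (6 * t + 2) * μ := by
  unfold col
  congr 2
  rcases h with h | h
  · have : p.1 + (6 * t + 3) - p.2 = (6 * t + 3) + μ := by omega
    rw [this, Nat.add_mod_left, Nat.mod_eq_of_lt hμ]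
  · have : p.1 + (6 * t + 3) - p.2 = μ := by omega
    rw [this, Nat.mod_eq_of_lt hμ]

lemma two_fam {F : Finset (ℕ × ℕ × ℕ)} {n n' : ℕ} (g g' : ℕ → ℕ × ℕ × ℕ)
    (h1 : ∀ i < n, g i ∈ F) (h2 : ∀ i < n', g' i ∈ F)
    (h3 : ∀ i < n, ∀ j < n, g i = g j → i = j) (h4 : ∀ i < n', ∀ j < n', g' i = g' j → i = j)
    (h5 : ∀ i < n, ∀ j < n', g i ≠ g' j) : n + n' ≤ F.card := by
  classical
  have e1 : ((range n).image g).card = n := by
    rw [Finset.card_image_of_injOn, card_range]
    intro i hi j hj h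
    exact h3 i (by simpa using hi) j (by simpa using hj) h
  have e2 : ((range n').image g').card = n' := by
    rw [Finset.card_image_of_injOn, card_range]
    intro i hi j hj h
    exact h4 i (by simpa using hi) j (by simpa using hj) h
  have e3 : Disjoint ((range n).image g) ((range n').image g') := by
    rw [Finset.disjoint_left]
    intro x hx hx'
    obtain ⟨i, hi, rfl⟩ := mem_image.1 hx
    obtain ⟨j, hj, hj'⟩ := mem_image.1 hx'
    exact h5 i (mem_range.1 hi) j (mem_range.1 hj) hj'.symm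
  have e4 : ((range n).image g ∪ (range n').image g') ⊆ F := by
    intro x hx
    rcases mem_union.1 hx with hx | hx
    · obtain ⟨i, hi, rfl⟩ := mem_image.1 hx
      exact h1 i (mem_range.1 hi)
    · obtain ⟨i, hi, rfl⟩ := mem_image.1 hx
      exact h2 i (mem_range.1 hi)
  have := card_le_card e4
  rwa [card_union_of_disjoint e3, e1, e2] at this

/-- the indices of the short words -/
def SH (t c : ℕ) : Finset (ℕ × ℕ × ℕ) :=
  (II t).filter (fun e => (pr t e).1 + (pr t e).2 + 1 ≤ 24 * t + 8 ∧ e.1 = c)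

lemma mem_SH {t c : ℕ} {e : ℕ × ℕ × ℕ} (h1 : e.1 = c) (h2 : c < 6) (h3 : e.2.1 < 3 * t + 1)
    (h4 : e.2.2 < 2 * t + 1) (h5 : col t (ro t e) + col t (co e) + 1 ≤ 24 * t + 8) :
    e ∈ SH t c := by
  rw [SH, mem_filter, mem_II]
  exact ⟨⟨by omega, h3, h4⟩, h5, h1⟩

lemma SH0 {t : ℕ} (ht : 1 ≤ t) : (3 * t + 1) + (3 * t + 1) ≤ (SH t 0).card := by
  refine two_fam (fun u => (0, u, 2 * u / 3))
    (fun u => (0, u, if 2 * u < 3 then 2 * t else 2 * u / 3 - 1)) ?_ ?_ ?_ ?_ ?_
  · intro u hu
    refine mem_SH rfl (by norm_num) hu (by simp only; omega) ?_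
    rw [col_eq (p := ro t _) 0 (by omega) (by simp [ro]),
      col_eq (p := co _) 0 (by omega) (by simp [co]; omega)]
    simp [ro, co]
    omega
  · intro u hu
    have hv : ∃ v, (if 2 * u < 3 then 2 * t else 2 * u / 3 - 1) = v ∧
        ((2 * u < 3 ∧ v = 2 * t) ∨ (3 ≤ 2 * u ∧ v = 2 * u / 3 - 1)) := by
      refine ⟨_, rfl, ?_⟩
      split_ifs <;> omega
    obtain ⟨v, hv1, hv2⟩ := hv
    simp only [hv1]
    refine mem_SH rfl (by norm_num) hu (by simp only; omega) ?_
    rw [col_eq (p := ro t _) 0 (by omega) (by simp [ro]),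
      col_eq (p := co _) 3 (by omega) (by simp [co]; omega)]
    simp [ro, co]
    omega
  · intro i _ j _ h
    simp only [Prod.mk.injEq] at h
    exact h.2.1
  · intro i _ j _ h
    simp only [Prod.mk.injEq] at h
    exact h.2.1
  · intro i hi j hj h
    simp only [Prod.mk.injEq] at h
    obtain ⟨-, rfl, h⟩ := h
    split_ifs at h <;> omega

lemma SH1 {t : ℕ} : (3 * t + 1) + 0 ≤ (SH t 1).card := by
  refine two_fam (fun u => (1, u, 2 * u / 3)) (fun _ => (0, 0, 0)) ?_ (by omega) ?_ (by omega)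
    (by omega)
  · intro u hu
    have hth : th t u (2 * u / 3) = 6 * t + 1 := by
      have := th_spec t u (2 * u / 3)
      omega
    refine mem_SH rfl (by norm_num) hu (by simp only; omega) ?_
    rw [col_eq (p := ro t _) 2 (by omega) (by simp [ro, hth]),
      col_eq (p := co _) 0 (by omega) (by simp [co]; omega)]
    simp [ro, co]
    omega
  · intro i _ j _ h
    simp only [Prod.mk.injEq] at h
    exact h.2.1

lemma SH2 {t : ℕ} (ht : 1 ≤ t) : (3 * t + 1) + (3 * t + 1) ≤ (SH t 2).card := by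
  refine two_fam (fun u => (2, u, 2 * u / 3))
    (fun u => (2, u, if 2 * u < 3 then 2 * t else 2 * u / 3 - 1)) ?_ ?_ ?_ ?_ ?_
  · intro u hu
    have hth : th t u (2 * u / 3) = 6 * t + 1 := by
      have := th_spec t u (2 * u / 3)
      omega
    refine mem_SH rfl (by norm_num) hu (by simp only; omega) ?_
    rw [col_eq (p := ro t _) 3 (by omega) (by simp [ro, hth]; omega),
      col_eq (p := co _) 0 (by omega) (by simp [co]; omega)]
    simp [ro, co]
    omega
  · intro u hu
    have hv : ∃ v, (if 2 * u < 3 then 2 * t else 2 * u / 3 - 1) = v ∧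
        ((2 * u < 3 ∧ v = 2 * t) ∨ (3 ≤ 2 * u ∧ v = 2 * u / 3 - 1)) := by
      refine ⟨_, rfl, ?_⟩
      split_ifs <;> omega
    obtain ⟨v, hv1, hv2⟩ := hv
    simp only [hv1]
    have hth : th t u v = 1 := by
      have := th_spec t u v
      omega
    refine mem_SH rfl (by norm_num) hu (by simp only; omega) ?_
    rw [col_eq (p := ro t _) 0 (by omega) (by simp [ro, hth]),
      col_eq (p := co _) 3 (by omega) (by simp [co]; omega)]
    simp [ro, co]
    omega
  · intro i _ j _ h
    simp only [Prod.mk.injEq] at h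
    exact h.2.1
  · intro i _ j _ h
    simp only [Prod.mk.injEq] at h
    exact h.2.1
  · intro i hi j hj h
    simp only [Prod.mk.injEq] at h
    obtain ⟨-, rfl, h⟩ := h
    split_ifs at h <;> omega

lemma SH3 {t : ℕ} (ht : 1 ≤ t) : (2 * t + 1) + 2 * t ≤ (SH t 3).card := by
  refine two_fam (fun v => (3, 3 * v / 2, v)) (fun v => (3, 3 * v / 2 + 1, v)) ?_ ?_ ?_ ?_ ?_
  · intro v hv
    refine mem_SH rfl (by norm_num) (by simp only; omega) hv ?_
    rw [col_eq (p := ro t _) 1 (by omega) (by simp [ro]),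
      col_eq (p := co _) 0 (by omega) (by simp [co]; omega)]
    simp [ro, co]
    omega
  · intro v hv
    refine mem_SH rfl (by norm_num) (by simp only; omega) (by simp only; omega) ?_
    rw [col_eq (p := ro t _) 1 (by omega) (by simp [ro]),
      col_eq (p := co _) 2 (by omega) (by simp [co]; omega)]
    simp [ro, co]
    omega
  · intro i _ j _ h
    simp only [Prod.mk.injEq] at h
    exact h.2.2
  · intro i _ j _ h
    simp only [Prod.mk.injEq] at h
    exact h.2.2
  · intro i hi j hj h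
    simp only [Prod.mk.injEq] at h
    omega

lemma SH4 {t : ℕ} (ht : 1 ≤ t) : (2 * t + 1) + 2 * t ≤ (SH t 4).card := by
  refine two_fam (fun v => (4, (3 * v + 1) / 2, v)) (fun v => (4, (3 * v + 1) / 2 + 1, v))
    ?_ ?_ ?_ ?_ ?_
  · intro v hv
    refine mem_SH rfl (by norm_num) (by simp only; omega) hv ?_
    rw [col_eq (p := ro t _) 1 (by omega) (by simp [ro]),
      col_eq (p := co _) 0 (by omega) (by simp [co]; omega)]
    simp [ro, co]
    omega
  · intro v hv
    refine mem_SH rfl (by norm_num) (by simp only; omega) (by simp only; omega) ?_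
    rw [col_eq (p := ro t _) 1 (by omega) (by simp [ro]),
      col_eq (p := co _) 2 (by omega) (by simp [co]; omega)]
    simp [ro, co]
    omega
  · intro i _ j _ h
    simp only [Prod.mk.injEq] at h
    exact h.2.2
  · intro i _ j _ h
    simp only [Prod.mk.injEq] at h
    exact h.2.2
  · intro i hi j hj h
    simp only [Prod.mk.injEq] at h
    omega

lemma SH5 {t : ℕ} (ht : 1 ≤ t) : (3 * t + 1) + 0 ≤ (SH t 5).card := by
  refine two_fam (fun u => (5, u, 2 * u / 3)) (fun _ => (0, 0, 0)) ?_ (by omega) ?_ (by omega)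
    (by omega)
  · intro u hu
    have hsg := sg_spec u
    refine mem_SH rfl (by norm_num) hu (by simp only; omega) ?_
    rw [col_eq (p := ro t _) 2 (by omega) (by simp [ro]; omega)]
    by_cases h2 : (2 * u) % 3 = 2
    · rw [col_eq (p := co _) 1 (by omega) (by simp [co]; omega)]
      simp [ro, co]
      omega
    · rw [col_eq (p := co _) 0 (by omega) (by simp [co]; omega)]
      simp [ro, co]
      omega
  · intro i _ j _ h
    simp only [Prod.mk.injEq] at h
    exact h.2.1

lemma short_card {t : ℕ} (ht : 1 ≤ t) : 26 * t + 8 ≤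
    ((II t).filter (fun e => (pr t e).1 + (pr t e).2 + 1 ≤ 24 * t + 8)).card := by
  have h := Finset.card_eq_sum_card_fiberwise
    (s := (II t).filter (fun e => (pr t e).1 + (pr t e).2 + 1 ≤ 24 * t + 8))
    (f := fun e => e.1) (t := range 6) (by
      intro e he
      have := (mem_filter.1 (Finset.mem_coe.1 he)).1
      rw [mem_II] at this
      simpa using this.1)
  have h' : ∀ c, (((II t).filter (fun e => (pr t e).1 + (pr t e).2 + 1 ≤ 24 * t + 8)).filter
      (fun e => e.1 = c)) = SH t c := by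
    intro c
    rw [SH, Finset.filter_filter]
  simp only [h'] at h
  rw [h]
  simp only [Finset.sum_range_succ, Finset.sum_range_zero]
  have a0 := SH0 ht
  have a1 := SH1 (t := t)
  have a2 := SH2 ht
  have a3 := SH3 ht
  have a4 := SH4 ht
  have a5 := SH5 ht
  omega

lemma bl_sum {t m : ℕ} {e : ℕ × ℕ × ℕ} {r : ℕ} (h : r < m) :
    (bl t m (e, r)).1 + (bl t m (e, r)).2 + 1 = m * ((pr t e).1 + (pr t e).2 + 1) := by
  simp only [bl]
  have : m * ((pr t e).1 + (pr t e).2 + 1) = m * (pr t e).1 + m * (pr t e).2 + m := by ring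
  omega

lemma XX_short {t : ℕ} (ht : 1 ≤ t) (m : ℕ) :
    (26 * t + 8) * m ≤ ((XX t m).filter (fun p => p.1 + p.2 + 1 ≤ (24 * t + 8) * m)).card := by
  have h1 : (26 * t + 8) * m ≤
      (((II t).filter (fun e => (pr t e).1 + (pr t e).2 + 1 ≤ 24 * t + 8)) ×ˢ range m).card := by
    rw [card_product, card_range]
    exact Nat.mul_le_mul_right m (short_card ht)
  refine h1.trans ?_
  rw [← Finset.card_image_of_injOn (f := bl t m)
    (s := ((II t).filter (fun e => (pr t e).1 + (pr t e).2 + 1 ≤ 24 * t + 8)) ×ˢ range m)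
    ((bl_inj t m).mono (by
      intro p hp
      have := mem_product.1 (Finset.mem_coe.1 hp)
      exact Finset.mem_coe.2 (mem_product.2 ⟨(mem_filter.1 this.1).1, this.2⟩)))]
  refine Finset.card_le_card ?_
  intro q hq
  obtain ⟨⟨e, r⟩, hp, rfl⟩ := Finset.mem_image.1 hq
  rw [mem_product, mem_filter, mem_range] at hp
  rw [mem_filter]
  refine ⟨Finset.mem_image.2 ⟨(e, r), ?_, rfl⟩, ?_⟩
  · rw [mem_product, mem_range]
    exact ⟨hp.1.1, hp.2⟩
  · rw [bl_sum hp.2, mul_comm (24 * t + 8) m]
    exact Nat.mul_le_mul_left m hp.1.2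

end Pool.Agent.Helper31.BAY
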