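import Mathlib
import Pool.Agent.Helper38.TC.Base

/-! Bayonet codes: the defect set of a code, the doubling inequality and an upper bound for the
cardinality. -/

set_option autoImplicit false

namespace Pool.Agent.Helper31.BAY

open InformationTheory Finset
open Pool.Agent.Helper38.TC (wd cons_inj no_b wd_inj)

/-- `X` is compatible with the set `P` of defects. -/
def PC (P : ℤ → Prop) (X : Finset (ℕ × ℕ)) : Prop :=
  ∀ x ∈ X, ∀ y ∈ X, x ≠ y → (x.1 = y.1 ∨ P ((x.1 : ℤ) - y.1)) → P ((x.2 : ℤ) - y.2)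

/-- outer parts of the products of two words with middle block `s` -/
def YY (X : Finset (ℕ × ℕ)) (s : ℕ) : Finset (ℕ × ℕ) :=
  ((X ×ˢ X).filter (fun p => p.1.2 + p.2.1 = s)).image (fun p => (p.1.1, p.2.2))

variable {P : ℤ → Prop}

lemma pair_inj (h0 : ¬ P 0) (hs : ∀ d, P d → P (-d)) {X : Finset (ℕ × ℕ)} (hX : PC P X)
    {x y x' y' : ℕ × ℕ} (hx : x ∈ X) (hy : y ∈ X) (hx' : x' ∈ X) (hy' : y' ∈ X)
    (hm : x.2 + y.1 = x'.2 + y'.1) (h1 : x.1 = x'.1) (h2 : y.2 = y'.2) : x = x' ∧ y = y' := by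
  have key : y = y' → x = x' := by
    intro h
    subst h
    refine Prod.ext h1 ?_
    omega
  by_cases hxx : x = x'
  · refine ⟨hxx, ?_⟩
    subst hxx
    refine Prod.ext ?_ h2
    omega
  · exfalso
    have h3 := hX x hx x' hx' hxx (Or.inl h1)
    have h4 : y ≠ y' := fun h => hxx (key h)
    have h5 : P ((y.1 : ℤ) - y'.1) := by
      have : (y.1 : ℤ) - y'.1 = -((x.2 : ℤ) - x'.2) := by
        have : (x.2 : ℤ) + y.1 = x'.2 + y'.1 := by exact_mod_cast hm
        linarith
      rw [this]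
      exact hs _ h3
    have h6 := hX y hy y' hy' h4 (Or.inr h5)
    rw [h2, sub_self] at h6
    exact h0 h6

lemma PC_YY (h0 : ¬ P 0) (hs : ∀ d, P d → P (-d)) {X : Finset (ℕ × ℕ)} (hX : PC P X) (s : ℕ) :
    PC P (YY X s) := by
  intro p hp q hq hpq hc
  simp only [YY, mem_image, mem_filter, mem_product] at hp hq
  obtain ⟨⟨x, y⟩, ⟨⟨hx, hy⟩, hm⟩, rfl⟩ := hp
  obtain ⟨⟨x', y'⟩, ⟨⟨hx', hy'⟩, hm'⟩, rfl⟩ := hq
  simp only at hx hy hx' hy' hm hm' hpq hc ⊢
  have hm2 : (x.2 : ℤ) + y.1 = x'.2 + y'.1 := by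
    have : x.2 + y.1 = x'.2 + y'.1 := by omega
    exact_mod_cast this
  by_cases hxx : x = x'
  · subst hxx
    have h1 : y.1 = y'.1 := by omega
    have h2 : y ≠ y' := by
      intro h
      subst h
      exact hpq rfl
    exact hX y hy y' hy' h2 (Or.inl h1)
  · have h3 := hX x hx x' hx' hxx hc
    have h5 : P ((y.1 : ℤ) - y'.1) := by
      have : (y.1 : ℤ) - y'.1 = -((x.2 : ℤ) - x'.2) := by linarith
      rw [this]
      exact hs _ h3
    have h6 : y ≠ y' := by
      intro h
      subst h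
      rw [sub_self] at h5
      exact h0 h5
    exact hX y hy y' hy' h6 (Or.inr h5)

lemma card_sq (h0 : ¬ P 0) (hs : ∀ d, P d → P (-d)) {X : Finset (ℕ × ℕ)} (hX : PC P X) (S : ℕ)
    (hS : ∀ x ∈ X, ∀ y ∈ X, x.2 + y.1 < S) :
    X.card * X.card = ∑ s ∈ range S, (YY X s).card := by
  rw [← card_product]
  rw [Finset.card_eq_sum_card_fiberwise (f := fun p : (ℕ × ℕ) × (ℕ × ℕ) => p.1.2 + p.2.1)
    (t := range S)]
  · refine Finset.sum_congr rfl fun s _ => ?_
    rw [YY, Finset.card_image_of_injOn]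
    rintro ⟨x, y⟩ h ⟨x', y'⟩ h' he
    simp only [coe_filter, mem_product, Set.mem_ofPred_eq] at h h'
    simp only [Prod.mk.injEq] at he
    have := pair_inj h0 hs hX h.1.1 h.1.2 h'.1.1 h'.1.2 (by omega) he.1 he.2
    rw [this.1, this.2]
  · intro p hp
    have hp' := mem_product.1 (Finset.mem_coe.1 hp)
    simp only [coe_range, Set.mem_Iio]
    exact hS _ hp'.1 _ hp'.2

lemma mem_YY {X : Finset (ℕ × ℕ)} {s : ℕ} {p : ℕ × ℕ} (hp : p ∈ YY X s) :
    ∃ x ∈ X, ∃ y ∈ X, x.2 + y.1 = s ∧ p.1 = x.1 ∧ p.2 = y.2 := by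
  simp only [YY, mem_image, mem_filter, mem_product] at hp
  obtain ⟨⟨x, y⟩, ⟨⟨hx, hy⟩, hm⟩, rfl⟩ := hp
  exact ⟨x, hx, y, hy, hm, rfl, rfl⟩

/-- The bound in a square. -/
lemma card_square (h0 : ¬ P 0) (hs : ∀ d, P d → P (-d)) (k : ℕ) {X : Finset (ℕ × ℕ)}
    (hX : PC P X) (hk : ∀ x ∈ X, x.1 < k ∧ x.2 < k) : X.card ≤ 2 * k - 1 := by
  classical
  set F : Finset (Finset (ℕ × ℕ)) := ((range k ×ˢ range k).powerset).filter (fun Z => PC P Z)
    with hF
  have hXF : X ∈ F := by
    rw [hF, mem_filter, mem_powerset]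
    refine ⟨?_, hX⟩
    intro x hx
    rw [mem_product, mem_range, mem_range]
    exact hk x hx
  obtain ⟨Z, hZF, hZ⟩ := Finset.exists_max_image F Finset.card ⟨X, hXF⟩
  rw [hF, mem_filter, mem_powerset] at hZF
  have hZk : ∀ x ∈ Z, x.1 < k ∧ x.2 < k := by
    intro x hx
    have := hZF.1 hx
    rwa [mem_product, mem_range, mem_range] at this
  refine (hZ X hXF).trans ?_
  have h1 := card_sq h0 hs hZF.2 (2 * k - 1) (by
    intro x hx y hy
    have := hZk x hx
    have := hZk y hy
    omega)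
  have h2 : ∑ s ∈ range (2 * k - 1), (YY Z s).card ≤ ∑ s ∈ range (2 * k - 1), Z.card := by
    refine Finset.sum_le_sum fun s _ => ?_
    refine hZ _ ?_
    rw [hF, mem_filter, mem_powerset]
    refine ⟨?_, PC_YY h0 hs hZF.2 s⟩
    intro p hp
    obtain ⟨x, hx, y, hy, -, e1, e2⟩ := mem_YY hp
    rw [mem_product, mem_range, mem_range, e1, e2]
    exact ⟨(hZk x hx).1, (hZk y hy).2⟩
  rw [Finset.sum_const, card_range, smul_eq_mul] at h2
  rw [← h1] at h2
  rcases Nat.eq_zero_or_pos Z.card with h3 | h3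
  · omega
  · exact Nat.le_of_mul_le_mul_right h2 h3

lemma sum_pent (k : ℕ) (d : ℕ) :
    ∑ u ∈ range d, (2 * (k : ℤ) - 3 - 2 * u) = d * (2 * k - 2 - d) := by
  induction d with
  | zero => simp
  | succ d ih =>
    rw [Finset.sum_range_succ, ih]
    push_cast
    ring

/-- The bound in a pentagon. -/
lemma card_pent (h0 : ¬ P 0) (hs : ∀ d, P d → P (-d)) (k l : ℕ) (hkl : k ≤ l)
    (hl : l + 1 ≤ 2 * k) {X : Finset (ℕ × ℕ)} (hX : PC P X)
    (hk : ∀ x ∈ X, x.1 < k ∧ x.2 < k ∧ x.1 + x.2 < l) :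
    (X.card : ℤ) ^ 2 ≤ l * (4 * k - l) := by
  have h1 := card_sq h0 hs hX (2 * k - 1) (by
    intro x hx y hy
    have := hk x hx
    have := hk y hy
    omega)
  obtain ⟨d, hd⟩ : ∃ d, 2 * k - 1 = l + d := ⟨2 * k - 1 - l, by omega⟩
  rw [hd, Finset.sum_range_add] at h1
  have h2 : (∑ s ∈ range l, (YY X s).card : ℤ) ≤ l * (2 * k - 1) := by
    have : (∑ s ∈ range l, (YY X s).card : ℤ) ≤ ∑ s ∈ range l, (2 * (k : ℤ) - 1) := by
      refine Finset.sum_le_sum fun s _ => ?_
      have h3 := card_square h0 hs k (PC_YY h0 hs hX s) (by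
        intro p hp
        obtain ⟨x, hx, y, hy, -, e1, e2⟩ := mem_YY hp
        rw [e1, e2]
        exact ⟨(hk x hx).1, (hk y hy).2.1⟩)
      omega
    refine this.trans (le_of_eq ?_)
    rw [Finset.sum_const, card_range, nsmul_eq_mul]
  have h4 : (∑ u ∈ range d, (YY X (l + u)).card : ℤ) ≤ d * (2 * k - 2 - d) := by
    rw [← sum_pent k d]
    refine Finset.sum_le_sum fun u hu => ?_
    rw [mem_range] at hu
    have h3 := card_square h0 hs (k + l - 1 - (l + u)) (PC_YY h0 hs hX (l + u)) (by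
      intro p hp
      obtain ⟨x, hx, y, hy, hxy, e1, e2⟩ := mem_YY hp
      rw [e1, e2]
      have := hk x hx
      have := hk y hy
      omega)
    omega
  have h5 : (X.card : ℤ) ^ 2 = ∑ s ∈ range l, ((YY X s).card : ℤ) +
      ∑ u ∈ range d, ((YY X (l + u)).card : ℤ) := by
    rw [sq]
    exact_mod_cast h1
  have h6 : (d : ℤ) = 2 * k - 1 - l := by omega
  rw [h5]
  rw [h6] at h4
  have h7 : (1 : ℤ) ≤ k := by omega
  have h8 : (1 : ℤ) ≤ l := by omega
  nlinarith

lemma sum_tail (k : ℕ) : ∑ u ∈ range k, ((k : ℝ) - 1 - u) = k * (k - 1) / 2 := by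
  induction k with
  | zero => simp
  | succ k ih =>
    rw [Finset.sum_range_succ]
    have : ∀ u ∈ range k, (((k + 1 : ℕ) : ℝ) - 1 - u) = ((k : ℝ) - 1 - u) + 1 := by
      intro u _
      push_cast
      ring
    rw [Finset.sum_congr rfl this, Finset.sum_add_distrib, ih]
    push_cast
    simp
    ring

lemma sum_sq (k : ℕ) :
    ∑ s ∈ range k, ((s : ℝ) + 1) ^ 2 = ((k : ℝ) * (k + 1) * (2 * k + 1) / 6 : ℝ) := by
  induction k with
  | zero => simp
  | succ k ih =>
    rw [Finset.sum_range_succ, ih]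
    push_cast
    ring

/-- The bound in a triangle. -/
lemma card_tri (h0 : ¬ P 0) (hs : ∀ d, P d → P (-d)) : ∀ (k : ℕ) (X : Finset (ℕ × ℕ)),
    PC P X → (∀ x ∈ X, x.1 + x.2 < k) → (X.card : ℝ) ≤ 1.657 * k := by
  intro k
  induction k using Nat.strong_induction_on with
  | _ k ih =>
    intro X hX hk
    rcases Nat.eq_zero_or_pos k with hk0 | hk0
    · subst hk0
      have : X = ∅ := by
        refine Finset.eq_empty_of_forall_notMem fun x hx => ?_
        exact absurd (hk x hx) (Nat.not_lt_zero _)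
      simp [this]
    have hkr : (0 : ℝ) < k := by exact_mod_cast hk0
    have h1 := card_sq h0 hs hX (2 * k - 1) (by
      intro x hx y hy
      have := hk x hx
      have := hk y hy
      omega)
    have hd : 2 * k - 1 = k + (k - 1) := by omega
    rw [hd, Finset.sum_range_add] at h1
    have h2 : ∀ s ∈ range k, ((YY X s).card : ℝ) ≤ 2 * k - ((s : ℝ) + 1) ^ 2 / (4 * k) := by
      intro s hsk
      rw [mem_range] at hsk
      have h3 := card_pent h0 hs k (2 * k - 1 - s) (by omega) (by omega) (PC_YY h0 hs hX s) (by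
        intro p hp
        obtain ⟨x, hx, y, hy, hxy, e1, e2⟩ := mem_YY hp
        rw [e1, e2]
        have := hk x hx
        have := hk y hy
        omega)
      have h4 : ((YY X s).card : ℝ) ^ 2 ≤ 4 * k ^ 2 - ((s : ℝ) + 1) ^ 2 := by
        have h5 : ((2 * k - 1 - s : ℕ) : ℤ) = 2 * k - 1 - s := by omega
        rw [h5] at h3
        have h6 : ((YY X s).card : ℤ) ^ 2 ≤ 4 * k ^ 2 - ((s : ℤ) + 1) ^ 2 := by
          refine h3.trans (le_of_eq ?_)
          ring
        exact_mod_cast h6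
      have h7 : ((s : ℝ) + 1) ≤ k := by exact_mod_cast hsk
      have h8 : 0 ≤ (s : ℝ) := Nat.cast_nonneg s
      have h9 : ((s : ℝ) + 1) ^ 2 / (4 * k) ≤ k / 4 := by
        rw [div_le_div_iff₀ (by positivity) (by norm_num)]
        nlinarith
      refine abs_le_of_sq_le_sq' ?_ (by linarith) |>.2
      have h10 : (2 * (k : ℝ) - ((s : ℝ) + 1) ^ 2 / (4 * k)) ^ 2 =
          4 * k ^ 2 - ((s : ℝ) + 1) ^ 2 + (((s : ℝ) + 1) ^ 2 / (4 * k)) ^ 2 := by
        field_simp
        ring
      rw [h10]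
      nlinarith [sq_nonneg (((s : ℝ) + 1) ^ 2 / (4 * k))]
    have h3 : ∀ u ∈ range (k - 1), ((YY X (k + u)).card : ℝ) ≤ 1.657 * ((k : ℝ) - 1 - u) := by
      intro u hu
      rw [mem_range] at hu
      have h4 := ih (k - 1 - u) (by omega) (YY X (k + u)) (PC_YY h0 hs hX (k + u)) (by
        intro p hp
        obtain ⟨x, hx, y, hy, hxy, e1, e2⟩ := mem_YY hp
        rw [e1, e2]
        have := hk x hx
        have := hk y hy
        omega)
      have h5 : ((k - 1 - u : ℕ) : ℝ) = (k : ℝ) - 1 - u := by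
        rw [Nat.sub_sub, Nat.cast_sub (by omega)]
        push_cast
        ring
      rwa [h5] at h4
    have h4 : ((X.card : ℝ)) ^ 2 = ∑ s ∈ range k, ((YY X s).card : ℝ) +
        ∑ u ∈ range (k - 1), ((YY X (k + u)).card : ℝ) := by
      rw [sq]
      exact_mod_cast h1
    have h5 : ∑ s ∈ range k, ((YY X s).card : ℝ) ≤
        2 * k ^ 2 - (k + 1) * (2 * k + 1) / 24 := by
      refine (Finset.sum_le_sum h2).trans (le_of_eq ?_)
      rw [Finset.sum_sub_distrib, ← Finset.sum_div, sum_sq]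
      simp only [sum_const, card_range, nsmul_eq_mul]
      field_simp
      ring
    have h6 : ∑ u ∈ range (k - 1), ((YY X (k + u)).card : ℝ) ≤ 1.657 * (k * (k - 1) / 2) := by
      refine (Finset.sum_le_sum h3).trans ?_
      rw [← Finset.mul_sum, ← sum_tail k]
      refine mul_le_mul_of_nonneg_left ?_ (by norm_num)
      obtain ⟨m, rfl⟩ : ∃ m, k = m + 1 := ⟨k - 1, by omega⟩
      rw [Nat.add_sub_cancel, Finset.sum_range_succ]
      push_cast
      linarith
    refine abs_le_of_sq_le_sq' ?_ (by positivity) |>.2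
    rw [h4]
    have h7 : (1 : ℝ) ≤ k := by exact_mod_cast hk0
    nlinarith

/-- A code has a set of defects. -/
lemma defects {α : Type*} {a b : α} (hab : a ≠ b) {X : Finset (ℕ × ℕ)}
    (h : UniquelyDecodable (wd a b '' (X : Set (ℕ × ℕ)))) :
    ∃ P : ℤ → Prop, ¬ P 0 ∧ (∀ d, P d → P (-d)) ∧ PC P X := by
  set W : Set (List α) := wd a b '' (X : Set (ℕ × ℕ)) with hW
  refine ⟨fun d => ∃ l₁ l₂ : List (List α), (∀ w ∈ l₁, w ∈ W) ∧ (∀ w ∈ l₂, w ∈ W) ∧ l₁ ≠ l₂ ∧
    ∃ u v : ℕ, l₁.flatten ++ List.replicate u a = l₂.flatten ++ List.replicate v a ∧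
      (v : ℤ) - u = d, ?_, ?_, ?_⟩
  · rintro ⟨l₁, l₂, h₁, h₂, hne, u, v, he, huv⟩
    have : u = v := by omega
    subst this
    exact hne (h l₁ l₂ h₁ h₂ (List.append_cancel_right he))
  · rintro d ⟨l₁, l₂, h₁, h₂, hne, u, v, he, huv⟩
    exact ⟨l₂, l₁, h₂, h₁, hne.symm, v, u, he.symm, by omega⟩
  · intro x hx y hy hxy hc
    have hwx : wd a b x ∈ W := ⟨x, hx, rfl⟩
    have hwy : wd a b y ∈ W := ⟨y, hy, rfl⟩
    rcases hc with hc | ⟨l₁, l₂, h₁, h₂, hne, u, v, he, huv⟩
    · refine ⟨[wd a b x], [wd a b y], by simpa using hwx, by simpa using hwy, ?_, y.2, x.2, ?_,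
        rfl⟩
      · intro he
        exact hxy (wd_inj hab (by simpa using he))
      · simp only [wd, List.flatten_cons, List.flatten_nil, List.append_nil, hc,
          List.append_assoc, List.cons_append, ← List.replicate_add]
        rw [Nat.add_comm]
    · -- append `y` to `l₁` and `x` to `l₂`
      have key : l₁.flatten ++ List.replicate y.1 a = l₂.flatten ++ List.replicate x.1 a := by
        rcases le_total u y.1 with hu | hu
        · obtain ⟨e, he1⟩ : ∃ e, y.1 = u + e := ⟨y.1 - u, by omega⟩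
          have he2 : x.1 = v + e := by omega
          rw [he1, he2, List.replicate_add, List.replicate_add, ← List.append_assoc,
            ← List.append_assoc, he]
        · obtain ⟨e, he1⟩ : ∃ e, u = y.1 + e := ⟨u - y.1, by omega⟩
          have he2 : v = x.1 + e := by omega
          rw [he1, he2, List.replicate_add, List.replicate_add, ← List.append_assoc,
            ← List.append_assoc] at he
          exact List.append_cancel_right he
      refine ⟨l₂ ++ [wd a b x], l₁ ++ [wd a b y], ?_, ?_, ?_, y.2, x.2, ?_, rfl⟩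
      · intro w hw
        rcases List.mem_append.1 hw with hw | hw
        · exact h₂ w hw
        · rw [List.mem_singleton] at hw
          rw [hw]
          exact hwx
      · intro w hw
        rcases List.mem_append.1 hw with hw | hw
        · exact h₁ w hw
        · rw [List.mem_singleton] at hw
          rw [hw]
          exact hwy
      · intro he3
        have := List.append_inj' he3 rfl
        exact hne this.1.symm
      · simp only [wd, List.flatten_append, List.flatten_cons, List.flatten_nil, List.append_nil,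
          List.append_assoc, List.cons_append, ← List.replicate_add]
        have e1 : ∀ z : List α, l₂.flatten ++ (List.replicate x.1 a ++ z) =
            l₁.flatten ++ (List.replicate y.1 a ++ z) := by
          intro z
          rw [← List.append_assoc, ← List.append_assoc, key]
        rw [e1, Nat.add_comm]

end Pool.Agent.Helper31.BAY
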